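import Pool.Agent.helper37.L5.SpecE

set_option autoImplicit false

namespace Pool.Agent.L5

open Pool.Agent.helper58.DC Pool.Agent.DI Pool.Agent.GR Pool.Agent.OB Pool.Agent.DR Pool.Agent.FI Pool.Agent.FI3 Pool.Agent.FI4 Pool.Agent.FI4I Pool.Agent.FI4E Pool.Agent.LE

theorem TEI5_img (hFEQ : FEQ_stmt) {G : Type} [Group G] [Finite G] (M : Ideal (integralClosure ℤ ℂ))
    (K : Subgroup G) (θ : G → ℂ) (h : G) : Bl M (cjS h K) (cjF h θ) = funMap (MulAut.conj h) '' Bl M K θ := by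
  ext φ
  constructor
  · intro hφ
    refine ⟨cjF h⁻¹ φ, ?_, ?_⟩
    · have h1 := (hFEQ G M h⁻¹ h K K (cjS h K) (cjF h θ) φ φ).2.2.2.2.2.2.1
      have h2 := h1.1 hφ
      have h3 := (hFEQ G M h⁻¹ h K K K θ θ θ).1
      rw [h3.1, h3.2.1, inv_mul_cancel] at h2
      rw [h3.2.2.1, h3.2.2.2] at h2
      exact h2
    · rw [funMap_conj]
      have h3 := (hFEQ G M h h⁻¹ K K K θ φ θ).1
      rw [h3.2.1, mul_inv_cancel, h3.2.2.2]
  · rintro ⟨ψ, hψ, rfl⟩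
    rw [funMap_conj]
    exact (hFEQ G M h h K K K θ ψ ψ).2.2.2.2.2.2.1.1 hψ

theorem TEI5 (hTSI : TSI_stmt) (hTSJ : TSJ_stmt) (hFEQ : FEQ_stmt) : TEI5_stmt := by
  intro p M _ G _ _ θ α
  refine ⟨fun K h g => ?_, fun H hH n hn => ?_, fun H => ?_⟩
  · have h1 := (hTSJ p M G K (al α (h⁻¹ * g * α h)) (MulAut.conj h)).1 (Bl M K θ)
    rw [conj_al, ← TEI5_img hFEQ, am_conj] at h1
    have h2 : h * (h⁻¹ * g * α h) * (α h)⁻¹ = g := by group
    rw [h2] at h1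
    exact h1
  · exact (hTSI p G H α hH n hn).2 (Bl M H θ) fun ψ hψ => hψ.1
  · unfold tE Le tS
    refine finsum_congr fun ψ => ?_
    have h1 : funMap (1 : MulAut G) ψ = ψ := by
      funext x
      simp only [funMap]
      rw [inv_one]
      rfl
    rw [h1]

end Pool.Agent.L5
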